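import Pool.Agent.H458.AU.Def

/-!
# Project AU (helper458), task FEW (helper350): few polynomials are good at few primes
-/

set_option autoImplicit false

open Polynomial Matrix IsDedekindDomain NumberField
open scoped Classical

namespace Pool.Agent.H350.AU458

open Pool.Agent.H458.AU
open Pool.Agent.N783.PF (Bd Cg sp rd Ht)
open Pool.Agent.N352.PF (Bz Bal)
open Pool.Agent.N951.PF (eq_pol bz_coeff)
open Pool.Agent.N352.PJ (pol)

variable {F : Type} [Field F] [NumberField F]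

lemma ht_finite (B : ℕ) : {f : (𝓞 F)[X] | Ht 1 B f}.Finite := by
  have h1 : ∀ T : ℕ, (Bal F T).Finite := by
    intro T
    have h2 := NumberField.Embeddings.finite_of_norm_le F ℂ (T : ℝ)
    refine Set.Finite.of_finite_image (f := fun x : 𝓞 F => (x : F)) (h2.subset ?_)
      (fun x _ y _ h => RingOfIntegers.coe_injective h)
    rintro x ⟨y, hy, rfl⟩
    exact ⟨RingOfIntegers.isIntegral_coe y, fun σ => hy σ⟩
  have h3 : (Bz F 1 B).Finite := by
    have h4 : Bz F 1 B = Set.pi Set.univ (fun j : Fin (2 * 1) => Bal F (B ^ (2 * 1 + 1 - (j : ℕ)))) := by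
      ext a
      simp only [Set.mem_pi, Set.mem_univ, forall_true_left]
      rfl
    rw [h4]
    exact Set.Finite.pi fun j => h1 _
  refine (h3.image pol).subset ?_
  intro f hf
  exact ⟨_, bz_coeff hf, (eq_pol hf).symm⟩

lemma card_quot {q : ℕ} (hq : q ≠ 0) : Finite (𝓞 F ⧸ sp F q) ∧
    Nat.card (𝓞 F ⧸ sp F q) = q ^ Module.finrank ℚ F := by
  have h1 : sp F q ≠ ⊥ := by
    rw [sp, Ne, Ideal.span_singleton_eq_bot]
    exact_mod_cast hq
  refine ⟨Ideal.finiteQuotientOfFreeOfNeBot _ h1, ?_⟩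
  have h2 : Nat.card (𝓞 F ⧸ sp F q) = Ideal.absNorm (sp F q) := by
    rw [Ideal.absNorm_apply, Submodule.cardQuot_apply]
  rw [h2, sp, Ideal.absNorm_span_natCast, RingOfIntegers.rank]

lemma cheb' (h2 : S_CHEB) (ι : Type) [Fintype ι] (R : ι → Type) [∀ i, Fintype (R i)]
    [∀ i, Nonempty (R i)] (G : ∀ i, Finset (R i)) (M : ℝ)
    (hM : M = ∑ i, ((G i).card : ℝ) / Fintype.card (R i)) (hp : 0 < M) :
    ∃ BadR : Finset (∀ i, R i), (∀ ρ, ρ ∈ BadR ↔ ((Nat.card {i // ρ i ∈ G i} : ℕ) : ℝ) < 9 / 10 * M) ∧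
      (BadR.card : ℝ) * M ≤ 100 * Nat.card (∀ i, R i) := by
  have h := h2 ι R G M hM hp
  refine ⟨_, fun ρ => ?_, h.trans (le_of_eq (by rw [Fintype.card_eq_nat_card]))⟩
  rw [Finset.mem_filter]
  have e : ((Finset.univ : Finset ι).filter fun i => ρ i ∈ G i).card = Nat.card {i // ρ i ∈ G i} := by
    rw [Nat.card_eq_fintype_card, Fintype.card_subtype]
  rw [e]
  exact ⟨fun h => h.2, fun h => ⟨Finset.mem_univ _, h⟩⟩

theorem few (h1 : S_FIB) (h2 : S_CHEB) : S_FEW := by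
  intro F _ _ ε hε
  obtain ⟨C, hC, hfib⟩ := h1 F
  have hC0 : (0 : ℝ) < C := by exact_mod_cast hC
  refine ⟨100 * C / ε, by positivity, fun W T 𝔮 hT hM => ⟨C * ∏ q ∈ T, q, fun B hB => ?_⟩⟩
  obtain ⟨M, hMd⟩ : ∃ M : ℝ, M = ∑ q ∈ T, dl q (𝔮 q) := ⟨_, rfl⟩
  rw [← hMd] at hM ⊢
  have hMpos : 0 < M := lt_of_lt_of_le (by positivity) hM
  have hpr : ∀ q ∈ T, q ≠ 0 := fun q hq => (hT q hq).pr.ne_zero
  obtain ⟨D, hD⟩ : ∃ D : ℕ, D = Module.finrank ℚ F := ⟨_, rfl⟩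
  rw [← hD]
  have hfin : ∀ i : T, Finite (𝓞 F ⧸ sp F (i : ℕ)) := fun i => (card_quot (hpr i i.2)).1
  let R : T → Type := fun i => (𝓞 F ⧸ sp F (i : ℕ)) × (𝓞 F ⧸ sp F (i : ℕ))
  have hfinR : ∀ i : T, Finite (R i) := fun i => by
    have := hfin i
    exact inferInstanceAs (Finite ((𝓞 F ⧸ sp F (i : ℕ)) × (𝓞 F ⧸ sp F (i : ℕ))))
  let hft : ∀ i : T, Fintype (R i) := fun i => Fintype.ofFinite (R i)
  have hne : ∀ i : T, Nonempty (R i) := fun i => ⟨(0, 0)⟩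
  have hcR : ∀ i : T, Fintype.card (R i) = (i : ℕ) ^ (2 * D) := by
    intro i
    rw [← Nat.card_eq_fintype_card]
    change Nat.card ((𝓞 F ⧸ sp F (i : ℕ)) × (𝓞 F ⧸ sp F (i : ℕ))) = _
    rw [Nat.card_prod, (card_quot (hpr i i.2)).2, ← hD, ← pow_add, two_mul]
  let G : ∀ i : T, Finset (R i) := fun i => Finset.univ.filter (fun r => r ∈ GR (i : ℕ) (𝔮 i))
  have hG : ∀ i : T, ((G i).card : ℝ) / Fintype.card (R i) = dl (i : ℕ) (𝔮 i) := by
    intro i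
    unfold dl
    rw [hcR, ← hD]
    push_cast
    congr 2
    have h3 : (GR (i : ℕ) (𝔮 i)) = ((G i : Finset (R i)) : Set (R i)) := by
      ext r
      simp only [G, Finset.coe_filter, Finset.mem_univ, true_and]
      rfl
    rw [h3, Set.ncard_coe_finset]
  have hMs : M = ∑ i : T, ((G i).card : ℝ) / Fintype.card (R i) := by
    rw [Finset.sum_congr rfl (fun i _ => hG i), hMd]
    exact (Finset.sum_coe_sort T (fun q => dl q (𝔮 q))).symm
  obtain ⟨BadR, hBadR, hcheb⟩ := cheb' h2 T R G M hMs hMpos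
  have hcall : (Nat.card (∀ i : T, R i) : ℝ) = ((∏ q ∈ T, q : ℕ) : ℝ) ^ (2 * D) := by
    rw [Nat.card_pi]
    have h3 : ∏ i : T, Nat.card (R i) = ∏ i : T, (i : ℕ) ^ (2 * D) :=
      Finset.prod_congr rfl fun i _ => by rw [Nat.card_eq_fintype_card, hcR]
    have h4 : ∏ i : T, (i : ℕ) ^ (2 * D) = ∏ q ∈ T, q ^ (2 * D) :=
      Finset.prod_coe_sort T (fun q => q ^ (2 * D))
    rw [h3, h4, Finset.prod_pow]
    push_cast
    rfl
  obtain ⟨P, hP⟩ : ∃ P : ℝ, P = ((∏ q ∈ T, q : ℕ) : ℝ) ^ (2 * D) := ⟨_, rfl⟩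
  rw [hcall, ← hP] at hcheb
  have hPpos : 0 < P := by
    rw [hP]
    have h3 : 0 < ∏ q ∈ T, q := Finset.prod_pos fun q hq => Nat.pos_of_ne_zero (hpr q hq)
    exact pow_pos (by exact_mod_cast h3) _
  -- the residues
  let Res : (𝓞 F)[X] → ∀ i : T, R i := fun f i => mk2 (i : ℕ) (f.coeff 1) (f.coeff 0)
  obtain ⟨Bd, hBd⟩ : ∃ Bd : Set (𝓞 F)[X], Bd = {f : (𝓞 F)[X] | Ht 1 B f ∧
    ((T.filter fun q => Gq q (𝔮 q) (f.coeff 1) (f.coeff 0)).card : ℝ) < 9 / 10 * M} := ⟨_, rfl⟩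
  rw [← hBd]
  have hBfin : Bd.Finite := (ht_finite B).subset (by rw [hBd]; exact fun f hf => hf.1)
  have hres : ∀ f ∈ Bd, Res f ∈ BadR := by
    intro f hf
    rw [hBd] at hf
    rw [hBadR]
    refine lt_of_le_of_lt (le_of_eq ?_) hf.2
    have h3 : ∀ i : T, Res f i ∈ G i ↔ Gq (i : ℕ) (𝔮 i) (f.coeff 1) (f.coeff 0) := by
      intro i
      rw [← mem_GR (hT i i.2).mem]
      simp only [G, Finset.mem_filter, Finset.mem_univ, true_and]
      rfl
    have h4 : Nat.card {i : T // Res f i ∈ G i} =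
        (T.filter fun q => Gq q (𝔮 q) (f.coeff 1) (f.coeff 0)).card := by
      rw [← Nat.card_eq_finsetCard]
      exact Nat.card_congr
        { toFun := fun i => ⟨i.1.1, Finset.mem_filter.2 ⟨i.1.2, (h3 i.1).1 i.2⟩⟩
          invFun := fun q => ⟨⟨q.1, (Finset.mem_filter.1 q.2).1⟩,
            (h3 _).2 (Finset.mem_filter.1 q.2).2⟩
          left_inv := fun i => rfl
          right_inv := fun q => rfl }
    rw [h4]
  have hfibre : ∀ ρ : ∀ i : T, R i,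
      (({f ∈ hBfin.toFinset | Res f = ρ}.card : ℕ) : ℝ) * P ≤ C * (B : ℝ) ^ (5 * D) := by
    intro ρ
    have h3 : ∀ i : T, ∃ a b : 𝓞 F, ρ i = mk2 (i : ℕ) a b := by
      intro i
      obtain ⟨a, ha⟩ := Ideal.Quotient.mk_surjective (ρ i).1
      obtain ⟨b, hb⟩ := Ideal.Quotient.mk_surjective (ρ i).2
      exact ⟨a, b, Prod.ext ha.symm hb.symm⟩
    choose a₀ b₀ hab using h3
    have h4 := hfib T (fun q => if h : q ∈ T then a₀ ⟨q, h⟩ else 0)
      (fun q => if h : q ∈ T then b₀ ⟨q, h⟩ else 0) B (fun q hq => (hT q hq).pr) hB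
    rw [← hD] at h4
    obtain ⟨Fb, hFb⟩ : ∃ Fb : Set (𝓞 F)[X], Fb = {f : (𝓞 F)[X] | Ht 1 B f ∧ ∀ q ∈ T,
      mk2 q (f.coeff 1) (f.coeff 0) = mk2 q (if h : q ∈ T then a₀ ⟨q, h⟩ else 0)
        (if h : q ∈ T then b₀ ⟨q, h⟩ else 0)} := ⟨_, rfl⟩
    rw [← hFb] at h4
    have h5 : {f ∈ hBfin.toFinset | Res f = ρ}.card ≤ Fb.ncard := by
      have h6 : Fb.Finite := (ht_finite B).subset (by rw [hFb]; exact fun f hf => hf.1)
      rw [Set.ncard_eq_toFinset_card _ h6]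
      refine Finset.card_le_card fun f hf => ?_
      rw [Finset.mem_filter, Set.Finite.mem_toFinset] at hf
      rw [Set.Finite.mem_toFinset, hFb]
      have h7 := hf.1
      rw [hBd] at h7
      refine ⟨h7.1, fun q hq => ?_⟩
      have h8 := congrFun hf.2 ⟨q, hq⟩
      rw [hab ⟨q, hq⟩] at h8
      rw [dif_pos hq, dif_pos hq]
      exact h8
    have h9 : ((Fb.ncard : ℕ) : ℝ) * P ≤ C * (B : ℝ) ^ (5 * D) := by
      rw [hP]
      exact_mod_cast h4
    refine le_trans ?_ h9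
    exact mul_le_mul_of_nonneg_right (by exact_mod_cast h5) hPpos.le
  have hcount : (Bd.ncard : ℝ) * P ≤ (BadR.card : ℝ) * (C * (B : ℝ) ^ (5 * D)) := by
    rw [Set.ncard_eq_toFinset_card _ hBfin]
    rw [Finset.card_eq_sum_card_fiberwise (f := Res) (t := BadR) (fun f hf => by
      exact hres f ((Set.Finite.mem_toFinset hBfin).1 hf))]
    push_cast
    rw [Finset.sum_mul]
    refine (Finset.sum_le_card_nsmul _ _ _ fun ρ _ => hfibre ρ).trans ?_
    rw [nsmul_eq_mul]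
  have hB0 : (0 : ℝ) ≤ (B : ℝ) ^ (5 * D) := by positivity
  have hfinal : (Bd.ncard : ℝ) * M ≤ 100 * C * (B : ℝ) ^ (5 * D) := by
    refine le_of_mul_le_mul_right ?_ hPpos
    calc (Bd.ncard : ℝ) * M * P = ((Bd.ncard : ℝ) * P) * M := by ring
      _ ≤ ((BadR.card : ℝ) * (C * (B : ℝ) ^ (5 * D))) * M :=
          mul_le_mul_of_nonneg_right hcount hMpos.le
      _ = ((BadR.card : ℝ) * M) * (C * (B : ℝ) ^ (5 * D)) := by ring
      _ ≤ (100 * P) * (C * (B : ℝ) ^ (5 * D)) := mul_le_mul_of_nonneg_right hcheb (by positivity)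
      _ = 100 * C * (B : ℝ) ^ (5 * D) * P := by ring
  have h10 : (Bd.ncard : ℝ) * (100 * C / ε) ≤ 100 * C * (B : ℝ) ^ (5 * D) :=
    (mul_le_mul_of_nonneg_left hM (by positivity)).trans hfinal
  have h11 : (Bd.ncard : ℝ) * (100 * C / ε) = 100 * C * ((Bd.ncard : ℝ) / ε) := by ring
  rw [h11, mul_assoc 100 (C : ℝ) ((B : ℝ) ^ (5 * D)), mul_assoc 100 (C : ℝ) ((Bd.ncard : ℝ) / ε)] at h10
  have h12 := le_of_mul_le_mul_left (le_of_mul_le_mul_left h10 (by norm_num)) hC0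
  rw [div_le_iff₀ hε] at h12
  linarith

end Pool.Agent.H350.AU458
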